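import Pool.Agent.Q51.AG.Mult

set_option autoImplicit false

/-!
# Maximal multiplicities in almost Golomb sequences

Let `a_r` be the almost Golomb sequence of order `r`, `M(r)` its maximal multiplicity, `j_k` the least
`r` with `M(r) ≥ k`, and `G` Golomb's sequence, `S(k) = G(1) + ... + G(k)`.  Then
`j_k = S(k-1) + 2` and `j_{k+1} - j_k = G(k)` for every `k ≥ 4`; moreover `M(r) = a_r(r) = G(r-1)`
for every `r ≥ 5`.
-/

namespace Pool.Agent.Results.MP_ac9862_nt.Thresholds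

open Pool.Agent.Q51.AG

theorem result :
    (∀ r : ℕ, 2 ≤ r → ∃! a : ℕ → ℕ, IsAlmostGolomb r a) ∧ (∃ G : ℕ → ℕ, IsGolomb G) ∧
    ∀ G : ℕ → ℕ, IsGolomb G → ∀ a : ℕ → ℕ → ℕ, (∀ r, 2 ≤ r → IsAlmostGolomb r (a r)) →
      (∀ k : ℕ, 4 ≤ k →
        IsLeast {r : ℕ | 2 ≤ r ∧ (k : ℕ∞) ≤ maxMult (a r)} (S G (k - 1) + 2) ∧
        IsLeast {r : ℕ | 2 ≤ r ∧ ((k + 1 : ℕ) : ℕ∞) ≤ maxMult (a r)} (S G (k - 1) + 2 + G k)) ∧
      (∀ r : ℕ, 5 ≤ r → maxMult (a r) = (a r r : ℕ∞) ∧ a r r = G (r - 1)) := by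
  refine ⟨fun r hr => exists_unique hr, exists_golomb, fun G hG a ha => ⟨fun k hk => ?_, ?_⟩⟩
  · have key : ∀ k : ℕ, 4 ≤ k →
        IsLeast {r : ℕ | 2 ≤ r ∧ (k : ℕ∞) ≤ maxMult (a r)} (S G (k - 1) + 2) := by
      intro k hk
      constructor
      · exact ⟨by omega, (threshold hG (by omega) ((ha _ (by omega)).FO (by omega)) k hk).2 le_rfl⟩
      · rintro r ⟨hr, hkr⟩
        exact (threshold hG hr ((ha r hr).FO hr) k hk).1 hkr
    refine ⟨key k hk, ?_⟩
    have h := key (k + 1) (by omega)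
    have h2 : S G (k + 1 - 1) = S G (k - 1) + G k := by
      obtain ⟨q, rfl⟩ : ∃ q, k = q + 1 := ⟨k - 1, by omega⟩
      rw [Nat.add_sub_cancel, Nat.add_sub_cancel, S_succ]
    rw [h2] at h
    rwa [show S G (k - 1) + G k + 2 = S G (k - 1) + 2 + G k by omega] at h
  · intro r hr
    have h := (ha r (by omega)).FO (by omega)
    refine ⟨?_, h.eq_golomb (by omega) hG r (by omega) le_rfl⟩
    have h3 : 3 ≤ a r r := (h.five (by omega)).trans (h.monotone hr)
    apply le_antisymm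
    · refine iSup₂_le fun m hm => (h.mult_le (by omega) m hm).trans ?_
      rw [max_eq_right h3]
    · have h2 : mult (a r) (r - 1) ≤ maxMult (a r) :=
        le_iSup₂ (f := fun (n : ℕ) (_ : 1 ≤ n) => mult (a r) n) (r - 1) (by omega)
      refine le_trans ?_ h2
      rw [h.mult_eq (by omega)]
      apply Nat.cast_le.2
      have h3 := s_step (by omega : 1 ≤ r) (a r) (r - 1)
      rw [show r - 1 + 1 = r by omega, Nat.sub_self, h.zero] at h3
      rw [show r - 1 + 1 = r by omega]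
      omega

end Pool.Agent.Results.MP_ac9862_nt.Thresholds
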